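import Pool.Agent.H59.LIN.Targets

/-! Row HVA of the board `lin_modules`: the HOMFLYPT weight system of the basic combinations. -/

set_option autoImplicit false

open Finset Polynomial

namespace Pool.Agent.H88.LIN

open Pool.Agent.H59.LIN

theorem alt_sum {γ M ι : Type} [AddCommGroup M] (s : Finset ι) (f : ι → List γ → M)
    (P : List (Pl γ)) (u : List γ) :
    alt (fun v => ∑ i ∈ s, f i v) u P = ∑ i ∈ s, alt (f i) u P := by
  induction P generalizing u with
  | nil => rfl
  | cons p P ih =>
    cases p with
    | si a => exact ih _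
    | pr a b =>
      change alt _ _ P - alt _ _ P = ∑ i ∈ s, (alt _ _ P - alt _ _ P)
      rw [ih, ih, Finset.sum_sub_distrib]

theorem alt_tr {γ : Type} {N : ℕ} (M : γ → Matrix (Fin N) (Fin N) ℤ)
    (P : List (Pl γ)) (u : List γ) :
    alt (fun v => ((v.map M).prod).trace) u P =
      ((u.map M).prod * (P.map (plM M)).prod).trace := by
  induction P generalizing u with
  | nil =>
    change ((u.map M).prod).trace = _
    rw [List.map_nil, List.prod_nil, mul_one]
  | cons p P ih =>
    cases p with
    | si a =>
      change alt _ _ P = _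
      rw [ih, List.map_cons, List.prod_cons, List.map_append, List.prod_append]
      simp only [List.map_cons, List.map_nil, List.prod_cons, List.prod_nil, mul_one, plM]
      rw [mul_assoc]
    | pr a b =>
      change alt _ _ P - alt _ _ P = _
      rw [ih, ih, List.map_cons, List.prod_cons, List.map_append, List.prod_append,
        List.map_append, List.prod_append, ← Matrix.trace_sub]
      simp only [List.map_cons, List.map_nil, List.prod_cons, List.prod_nil, mul_one, plM]
      congr 1
      noncomm_ring

theorem alt_swap {γ M : Type} [AddCommGroup M] (f : List γ → M) (a b : γ)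
    (hf : ∀ u v, f (u ++ [a, b] ++ v) = f (u ++ [b, a] ++ v)) (P : List (Pl γ)) (u v : List γ) :
    alt f (u ++ [a, b] ++ v) P = alt f (u ++ [b, a] ++ v) P := by
  induction P generalizing v with
  | nil => exact hf u v
  | cons p P ih =>
    cases p with
    | si c =>
      change alt f _ P = alt f _ P
      have := ih (v ++ [c])
      simpa only [List.append_assoc] using this
    | pr c d =>
      change alt f _ P - alt f _ P = alt f _ P - alt f _ P
      have h1 := ih (v ++ [c, d])
      have h2 := ih (v ++ [d, c])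
      simp only [List.append_assoc] at h1 h2 ⊢
      rw [h1, h2]

theorem alt_zero {γ M : Type} [AddCommGroup M] (f : List γ → M) (a b : γ)
    (hf : ∀ u v, f (u ++ [a, b] ++ v) = f (u ++ [b, a] ++ v)) (P : List (Pl γ))
    (hP : Pl.pr a b ∈ P) (u : List γ) : alt f u P = 0 := by
  induction P generalizing u with
  | nil => exact absurd hP List.not_mem_nil
  | cons p P ih =>
    rcases List.mem_cons.1 hP with h | h
    · rw [← h]
      change alt f _ P - alt f _ P = 0
      have := alt_swap f a b hf P u []
      simp only [List.append_nil] at this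
      rw [this, sub_self]
    · cases p with
      | si c => exact ih h _
      | pr c d =>
        change alt f _ P - alt f _ P = 0
        rw [ih h, ih h, sub_self]

theorem sub_univ {d : ℕ} (D : CD d) : sub D univ = List.ofFn D := by
  unfold sub
  rw [List.filter_eq_self]
  intro a _
  simp

theorem circ_pos {d : ℕ} (hd : 0 < d) (D : CD d) (B : Finset (Fin d)) : 1 ≤ circ D B := by
  unfold circ ncl
  haveI : Nonempty (Fin (2 * d)) := ⟨⟨0, by omega⟩⟩
  haveI : Finite (Quot fun x y => y = finRotate (2 * d) (jmp D B x)) :=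
    Finite.of_surjective (Quot.mk _) Quot.mk_surjective
  haveI : Nonempty (Quot fun x y => y = finRotate (2 * d) (jmp D B x)) :=
    ⟨Quot.mk _ (Classical.arbitrary _)⟩
  exact Nat.card_pos

theorem pf_HVA (hTRF : Pool.Agent.H59.LIN.T_TRF) (_hHLO : Pool.Agent.H59.LIN.T_HLO)
    (hPLV : Pool.Agent.H59.LIN.T_PLV) (hVAL : Pool.Agent.H59.LIN.T_VAL) :
    Pool.Agent.H59.LIN.T_HVA := by
  classical
  intro b x hx
  have hm : 0 < mb b := by simp [mb]
  -- the proper subsets
  have h1 : ∀ B : Finset (Fin (mb b)), B ≠ univ →
      ∑ D, x D • (X : ℤ[X]) ^ (circ D B - 1) = 0 := by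
    intro B hB
    obtain ⟨c, hc⟩ : ∃ c, c ∉ B := by
      by_contra h
      push Not at h
      exact hB (Finset.eq_univ_iff_forall.2 h)
    obtain ⟨a, a', hp, haa, hca⟩ := (hPLV b).2.2.2 c
    -- the function of the sub-diagram
    let F : List (Fin (mb b) × Bool) → ℤ[X] := fun l =>
      X ^ (Nat.log 2 (Int.toNat (∑ I : Fin (mb b) → Fin 2 × Fin 2,
        (((l.filter fun y => y.1 ∈ B).map (EE I)).prod).trace)) - 2 * (mb b - B.card) - 1)
    have hF : ∀ D : CD (mb b), (X : ℤ[X]) ^ (circ D B - 1) = F (List.ofFn D) := by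
      intro D
      have h2 := hTRF (mb b) D B 2 hm
      change _ = X ^ (Nat.log 2 (Int.toNat (∑ I : Fin (mb b) → Fin 2 × Fin 2,
        (((sub D B).map (EE I)).prod).trace)) - 2 * (mb b - B.card) - 1)
      rw [h2]
      have h3 : (((2 : ℕ) : ℤ) ^ (2 * (mb b - B.card) + circ D B)).toNat =
          2 ^ (2 * (mb b - B.card) + circ D B) := by
        rw [← Nat.cast_pow, Int.toNat_natCast]
      rw [h3, Nat.log_pow (by norm_num)]
      congr 1
      omega
    rw [Finset.sum_congr rfl fun D _ => by rw [hF D], hx ℤ[X] F]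
    refine alt_zero F a a' ?_ (PL b) hp []
    intro u v
    change X ^ _ = X ^ _
    have : (u ++ [a, a'] ++ v).filter (fun y => y.1 ∈ B) =
        (u ++ [a', a] ++ v).filter (fun y => y.1 ∈ B) := by
      simp only [List.filter_append]
      congr 2
      rcases hca with h | h
      · have ha : a.1 ∉ B := by rw [h]; exact hc
        by_cases h' : a'.1 ∈ B
        · simp [List.filter_cons, ha, h']
        · simp [List.filter_cons, ha, h']
      · have ha : a'.1 ∉ B := by rw [h]; exact hc
        by_cases h' : a.1 ∈ B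
        · simp [List.filter_cons, ha, h']
        · simp [List.filter_cons, ha, h']
    rw [this]
  -- the full set
  have h2 : ∑ D, x D • (X : ℤ[X]) ^ (circ D univ - 1) = hp b := by
    have h3 : ∀ N : ℕ, (N : ℤ) * (∑ D, x D • (X : ℤ[X]) ^ (circ D univ - 1)).eval (N : ℤ) =
        (N : ℤ) * (hp b).eval (N : ℤ) := by
      intro N
      rw [← hVAL b N, Polynomial.eval_finset_sum, Finset.mul_sum]
      have h4 : ∀ D : CD (mb b), (N : ℤ) * (x D • (X : ℤ[X]) ^ (circ D univ - 1)).eval (N : ℤ) =
          x D • ∑ I : Fin (mb b) → Fin N × Fin N, (((List.ofFn D).map (EE I)).prod).trace := by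
        intro D
        have h5 := hTRF (mb b) D univ N hm
        rw [sub_univ, Finset.card_univ, Fintype.card_fin, Nat.sub_self, mul_zero, zero_add] at h5
        rw [h5, Polynomial.eval_smul, Polynomial.eval_pow, Polynomial.eval_X, smul_eq_mul,
          smul_eq_mul]
        have h6 := circ_pos hm D univ
        obtain ⟨q, hq⟩ : ∃ q, circ D univ = q + 1 := ⟨circ D univ - 1, by omega⟩
        rw [hq, Nat.add_sub_cancel, pow_succ]
        ring
      rw [Finset.sum_congr rfl fun D _ => h4 D,
        hx ℤ (fun u => ∑ I : Fin (mb b) → Fin N × Fin N, ((u.map (EE I)).prod).trace), alt_sum]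
      refine Finset.sum_congr rfl fun I _ => ?_
      rw [alt_tr, List.map_nil, List.prod_nil, one_mul]
    refine Polynomial.eq_of_infinite_eval_eq _ _ ?_
    refine Set.infinite_of_injective_forall_mem (f := fun N : ℕ => ((N + 1 : ℕ) : ℤ)) ?_ ?_
    · intro N N' h
      have : ((N + 1 : ℕ) : ℤ) = ((N' + 1 : ℕ) : ℤ) := h
      exact_mod_cast (by exact_mod_cast this : N + 1 = N' + 1) |> Nat.succ_injective
    · intro N
      have h5 := h3 (N + 1)
      have h6 : ((N + 1 : ℕ) : ℤ) ≠ 0 := by exact_mod_cast Nat.succ_ne_zero N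
      exact mul_left_cancel₀ h6 h5
  -- end
  have h3 : ∀ D : CD (mb b), x D • hh D univ = ∑ B ∈ (univ : Finset (Fin (mb b))).powerset,
      (-X) ^ ((univ : Finset (Fin (mb b))).card - B.card) * (x D • (X : ℤ[X]) ^ (circ D B - 1)) := by
    intro D
    unfold hh
    rw [Finset.smul_sum]
    refine Finset.sum_congr rfl fun B _ => ?_
    rw [mul_smul_comm]
  rw [Finset.sum_congr rfl fun D _ => h3 D, Finset.sum_comm]
  rw [Finset.sum_eq_single (univ : Finset (Fin (mb b)))]
  · rw [Nat.sub_self, pow_zero]
    simp only [one_mul]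
    exact h2
  · intro B _ hB
    rw [← Finset.mul_sum, h1 B hB, mul_zero]
  · intro h
    exact absurd (Finset.mem_powerset_self _) h

end Pool.Agent.H88.LIN
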