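import Pool.Agent.H59.LIN.Targets

/-! Row VVF of the board `lin_modules`: the closed formula for the sums over the chains. -/

set_option autoImplicit false

open Finset Polynomial Matrix

namespace Pool.Agent.H88.LIN

open Pool.Agent.H59.LIN

theorem sEAE (N : ℕ) (A : Matrix (Fin N) (Fin N) ℤ) :
    ∑ g : Fin N × Fin N, Matrix.single g.1 g.2 (1 : ℤ) * A * Matrix.single g.2 g.1 1 =
      A.trace • (1 : Matrix (Fin N) (Fin N) ℤ) := by
  rw [Fintype.sum_prod_type]
  ext i j
  simp only [Matrix.single_mul_mul_single, one_mul, mul_one, Matrix.sum_apply, Matrix.smul_apply,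
    Matrix.trace, Matrix.diag_apply, Matrix.one_apply, Matrix.single_apply]
  by_cases h : i = j
  · subst h
    rw [Finset.sum_eq_single i]
    · simp
    · intro b _ hb
      refine Finset.sum_eq_zero fun y _ => ?_
      rw [if_neg]
      rintro ⟨h1, _⟩
      exact hb h1
    · intro h; exact absurd (Finset.mem_univ _) h
  · rw [if_neg h]
    simp only [smul_eq_mul, mul_zero]
    refine Finset.sum_eq_zero fun x _ => Finset.sum_eq_zero fun y _ => ?_
    rw [if_neg]
    rintro ⟨h1, h2⟩
    exact h (h1.symm.trans h2)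

theorem sTE (N : ℕ) (B : Matrix (Fin N) (Fin N) ℤ) :
    ∑ g : Fin N × Fin N, (Matrix.single g.2 g.1 (1 : ℤ) * B).trace • Matrix.single g.1 g.2 (1 : ℤ) =
      B := by
  rw [Fintype.sum_prod_type]
  conv_rhs => rw [Matrix.matrix_eq_sum_single B]
  refine Finset.sum_congr rfl fun i _ => Finset.sum_congr rfl fun j _ => ?_
  have h : (Matrix.single j i (1 : ℤ) * B).trace = B i j := by
    simp only [Matrix.trace, Matrix.diag_apply, Matrix.mul_apply, Matrix.single_apply]
    rw [Finset.sum_eq_single j]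
    · rw [Finset.sum_eq_single i]
      · simp
      · intro b _ hb
        rw [if_neg, zero_mul]
        rintro ⟨_, h1⟩
        exact hb h1.symm
      · intro h; exact absurd (Finset.mem_univ _) h
    · intro b _ hb
      refine Finset.sum_eq_zero fun y _ => ?_
      rw [if_neg, zero_mul]
      rintro ⟨h1, _⟩
      exact hb h1.symm
    · intro h; exact absurd (Finset.mem_univ _) h
  rw [h, Matrix.smul_single, smul_eq_mul, mul_one]

theorem stepV (N : ℕ) (A B : Matrix (Fin N) (Fin N) ℤ) (a b c d e f : ℤ) :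
    ∑ g : Fin N × Fin N, (A * Matrix.single g.1 g.2 1 - Matrix.single g.1 g.2 1 * A) *
      (a • (Matrix.single g.2 g.1 (1 : ℤ) * B) + b • (B * Matrix.single g.2 g.1 (1 : ℤ)) +
       (c * (Matrix.single g.2 g.1 (1 : ℤ)).trace) • B +
       (d * B.trace) • Matrix.single g.2 g.1 (1 : ℤ) +
       (e * (Matrix.single g.2 g.1 (1 : ℤ) * B).trace +
         f * ((Matrix.single g.2 g.1 (1 : ℤ)).trace * B.trace)) • 1) =
    ((N : ℤ) * a + e) • (A * B) + (-e) • (B * A) + (-a * A.trace) • B +
      ((b + (N : ℤ) * d) * B.trace) • A +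
      ((-b) * (A * B).trace + (-d) * (A.trace * B.trace)) • 1 := by
  have h1 : ∑ g : Fin N × Fin N, A * Matrix.single g.1 g.2 (1 : ℤ) * (Matrix.single g.2 g.1 1 * B) =
      (N : ℤ) • (A * B) := by
    have h := sEAE N 1
    have : ∑ g : Fin N × Fin N, A * Matrix.single g.1 g.2 (1 : ℤ) * (Matrix.single g.2 g.1 1 * B) =
      A * (∑ g : Fin N × Fin N, Matrix.single g.1 g.2 (1 : ℤ) * 1 * Matrix.single g.2 g.1 1) * B := by
      rw [Finset.mul_sum, Finset.sum_mul]
      refine Finset.sum_congr rfl fun g _ => ?_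
      simp only [mul_one, Matrix.mul_assoc]
    rw [this, h, Matrix.trace_one, Fintype.card_fin, Matrix.mul_smul, Matrix.mul_one,
      Matrix.smul_mul]
  have h2 : ∑ g : Fin N × Fin N, Matrix.single g.1 g.2 (1 : ℤ) * A * (Matrix.single g.2 g.1 1 * B) =
      A.trace • B := by
    have h := sEAE N A
    have : ∑ g : Fin N × Fin N, Matrix.single g.1 g.2 (1 : ℤ) * A * (Matrix.single g.2 g.1 1 * B) =
      (∑ g : Fin N × Fin N, Matrix.single g.1 g.2 (1 : ℤ) * A * Matrix.single g.2 g.1 1) * B := by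
      rw [Finset.sum_mul]
      refine Finset.sum_congr rfl fun g _ => ?_
      simp only [Matrix.mul_assoc]
    rw [this, h, Matrix.smul_mul, Matrix.one_mul]
  have h3 : ∑ g : Fin N × Fin N, A * Matrix.single g.1 g.2 (1 : ℤ) * (B * Matrix.single g.2 g.1 1) =
      B.trace • A := by
    have h := sEAE N B
    have : ∑ g : Fin N × Fin N, A * Matrix.single g.1 g.2 (1 : ℤ) * (B * Matrix.single g.2 g.1 1) =
      A * (∑ g : Fin N × Fin N, Matrix.single g.1 g.2 (1 : ℤ) * B * Matrix.single g.2 g.1 1) := by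
      rw [Finset.mul_sum]
      refine Finset.sum_congr rfl fun g _ => ?_
      simp only [Matrix.mul_assoc]
    rw [this, h, Matrix.mul_smul, Matrix.mul_one]
  have h4 : ∑ g : Fin N × Fin N, Matrix.single g.1 g.2 (1 : ℤ) * A * (B * Matrix.single g.2 g.1 1) =
      (A * B).trace • 1 := by
    rw [← sEAE N (A * B)]
    refine Finset.sum_congr rfl fun g _ => ?_
    simp only [Matrix.mul_assoc]
  have h5 : ∑ g : Fin N × Fin N, (Matrix.single g.2 g.1 (1 : ℤ)).trace •
      Matrix.single g.1 g.2 (1 : ℤ) = 1 := by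
    have h := sTE N 1
    simpa only [Matrix.mul_one] using h
  have h6 : ∑ g : Fin N × Fin N, (Matrix.single g.2 g.1 (1 : ℤ)).trace •
      ((A * Matrix.single g.1 g.2 (1 : ℤ) - Matrix.single g.1 g.2 1 * A)) = 0 := by
    have : ∑ g : Fin N × Fin N, (Matrix.single g.2 g.1 (1 : ℤ)).trace •
      ((A * Matrix.single g.1 g.2 (1 : ℤ) - Matrix.single g.1 g.2 1 * A)) =
      A * (∑ g : Fin N × Fin N, (Matrix.single g.2 g.1 (1 : ℤ)).trace • Matrix.single g.1 g.2 (1 : ℤ))
      - (∑ g : Fin N × Fin N, (Matrix.single g.2 g.1 (1 : ℤ)).trace •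
        Matrix.single g.1 g.2 (1 : ℤ)) * A := by
      rw [Finset.mul_sum, Finset.sum_mul, ← Finset.sum_sub_distrib]
      refine Finset.sum_congr rfl fun g _ => ?_
      rw [Matrix.mul_smul, Matrix.smul_mul, smul_sub]
    rw [this, h5, Matrix.mul_one, Matrix.one_mul, sub_self]
  have h7 : ∑ g : Fin N × Fin N, (Matrix.single g.2 g.1 (1 : ℤ) * B).trace •
      ((A * Matrix.single g.1 g.2 (1 : ℤ) - Matrix.single g.1 g.2 1 * A)) = A * B - B * A := by
    have : ∑ g : Fin N × Fin N, (Matrix.single g.2 g.1 (1 : ℤ) * B).trace •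
      ((A * Matrix.single g.1 g.2 (1 : ℤ) - Matrix.single g.1 g.2 1 * A)) =
      A * (∑ g : Fin N × Fin N, (Matrix.single g.2 g.1 (1 : ℤ) * B).trace •
        Matrix.single g.1 g.2 (1 : ℤ))
      - (∑ g : Fin N × Fin N, (Matrix.single g.2 g.1 (1 : ℤ) * B).trace •
        Matrix.single g.1 g.2 (1 : ℤ)) * A := by
      rw [Finset.mul_sum, Finset.sum_mul, ← Finset.sum_sub_distrib]
      refine Finset.sum_congr rfl fun g _ => ?_
      rw [Matrix.mul_smul, Matrix.smul_mul, smul_sub]
    rw [this, sTE]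
  have h8 : ∑ g : Fin N × Fin N, A * Matrix.single g.1 g.2 (1 : ℤ) * Matrix.single g.2 g.1 1 =
      (N : ℤ) • A := by
    have h := sEAE N 1
    have : ∑ g : Fin N × Fin N, A * Matrix.single g.1 g.2 (1 : ℤ) * Matrix.single g.2 g.1 1 =
      A * (∑ g : Fin N × Fin N, Matrix.single g.1 g.2 (1 : ℤ) * 1 * Matrix.single g.2 g.1 1) := by
      rw [Finset.mul_sum]
      refine Finset.sum_congr rfl fun g _ => ?_
      simp only [mul_one, Matrix.mul_assoc]
    rw [this, h, Matrix.trace_one, Fintype.card_fin, Matrix.mul_smul, Matrix.mul_one]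
  have h9 := sEAE N A
  have key : ∀ g : Fin N × Fin N,
      (A * Matrix.single g.1 g.2 1 - Matrix.single g.1 g.2 1 * A) *
      (a • (Matrix.single g.2 g.1 (1 : ℤ) * B) + b • (B * Matrix.single g.2 g.1 (1 : ℤ)) +
       (c * (Matrix.single g.2 g.1 (1 : ℤ)).trace) • B +
       (d * B.trace) • Matrix.single g.2 g.1 (1 : ℤ) +
       (e * (Matrix.single g.2 g.1 (1 : ℤ) * B).trace +
         f * ((Matrix.single g.2 g.1 (1 : ℤ)).trace * B.trace)) • 1) =
      a • (A * Matrix.single g.1 g.2 (1 : ℤ) * (Matrix.single g.2 g.1 1 * B)) -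
      a • (Matrix.single g.1 g.2 (1 : ℤ) * A * (Matrix.single g.2 g.1 1 * B)) +
      b • (A * Matrix.single g.1 g.2 (1 : ℤ) * (B * Matrix.single g.2 g.1 1)) -
      b • (Matrix.single g.1 g.2 (1 : ℤ) * A * (B * Matrix.single g.2 g.1 1)) +
      c • (((Matrix.single g.2 g.1 (1 : ℤ)).trace •
        ((A * Matrix.single g.1 g.2 (1 : ℤ) - Matrix.single g.1 g.2 1 * A))) * B) +
      (d * B.trace) • (A * Matrix.single g.1 g.2 (1 : ℤ) * Matrix.single g.2 g.1 1) -
      (d * B.trace) • (Matrix.single g.1 g.2 (1 : ℤ) * A * Matrix.single g.2 g.1 1) +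
      e • ((Matrix.single g.2 g.1 (1 : ℤ) * B).trace •
        ((A * Matrix.single g.1 g.2 (1 : ℤ) - Matrix.single g.1 g.2 1 * A))) +
      (f * B.trace) • ((Matrix.single g.2 g.1 (1 : ℤ)).trace •
        ((A * Matrix.single g.1 g.2 (1 : ℤ) - Matrix.single g.1 g.2 1 * A))) := by
    intro g
    simp only [Matrix.mul_add, Matrix.sub_mul, Matrix.mul_smul, Matrix.smul_mul, Matrix.mul_one,
      smul_sub, smul_smul, add_smul, Matrix.mul_assoc]
    have : f * ((Matrix.single g.2 g.1 (1 : ℤ)).trace * B.trace) =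
      f * B.trace * (Matrix.single g.2 g.1 (1 : ℤ)).trace := by ring
    rw [this]
    abel
  rw [Finset.sum_congr rfl fun g _ => key g]
  simp only [Finset.sum_add_distrib, Finset.sum_sub_distrib, ← Finset.smul_sum, ← Finset.sum_mul]
  rw [h1, h2, h3, h4, h6, h7, h8, h9]
  rw [Matrix.zero_mul]
  module

theorem pf_VVF : Pool.Agent.H59.LIN.T_VVF := by
  intro N k
  induction k with
  | zero =>
    intro A B
    simp [VV, al]
  | succ k ih =>
    intro A B
    have hV : VV N (k + 1) A B = ∑ g : Fin N × Fin N,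
      (A * Matrix.single g.1 g.2 1 - Matrix.single g.1 g.2 1 * A) *
        VV N k (Matrix.single g.2 g.1 1) B := rfl
    rw [hV]
    have hs := stepV N A B ((al (k + 1)).eval (N : ℤ)) (-(if Even k then (1 : ℤ) else 0))
      (-(al k).eval (N : ℤ)) (-(al k).eval (N : ℤ)) (if Odd k then (1 : ℤ) else 0)
      (if k = 0 then 0 else (al (k - 1)).eval (N : ℤ))
    have hg : ∀ g : Fin N × Fin N, VV N k (Matrix.single g.2 g.1 1) B =
        (((al (k + 1)).eval (N : ℤ)) • (Matrix.single g.2 g.1 (1 : ℤ) * B) +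
        (-(if Even k then (1 : ℤ) else 0)) • (B * Matrix.single g.2 g.1 (1 : ℤ)) +
       ((-(al k).eval (N : ℤ)) * (Matrix.single g.2 g.1 (1 : ℤ)).trace) • B +
       ((-(al k).eval (N : ℤ)) * B.trace) • Matrix.single g.2 g.1 (1 : ℤ) +
       ((if Odd k then (1 : ℤ) else 0) * (Matrix.single g.2 g.1 (1 : ℤ) * B).trace +
         (if k = 0 then 0 else (al (k - 1)).eval (N : ℤ)) *
          ((Matrix.single g.2 g.1 (1 : ℤ)).trace * B.trace)) • 1) := by
      intro g
      rw [ih]
      simp only [neg_mul, neg_smul]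
      abel
    rw [Finset.sum_congr rfl fun g _ => by rw [hg g], hs]
    have a1 : (al (k + 1 + 1)).eval (N : ℤ) = (N : ℤ) * (al (k + 1)).eval (N : ℤ) +
        (if Odd k then (1 : ℤ) else 0) := by
      have : al (k + 1 + 1) = X * al (k + 1) + if Even (k + 1) then 1 else 0 := rfl
      rw [this]
      by_cases h : Odd k
      · rw [if_pos h, if_pos (by exact h.add_one)]
        simp
      · rw [if_neg h, if_neg (by
          rw [Nat.not_even_iff_odd]
          exact (Nat.not_odd_iff_even.1 h).add_one)]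
        simp
    have a2 : (al (k + 1)).eval (N : ℤ) = (N : ℤ) * (al k).eval (N : ℤ) +
        (if Even k then (1 : ℤ) else 0) := by
      have : al (k + 1) = X * al k + if Even k then 1 else 0 := rfl
      rw [this]
      by_cases h : Even k
      · simp [h]
      · simp [h]
    have a3 : (if Even (k + 1) then (1 : ℤ) else 0) = if Odd k then (1 : ℤ) else 0 := by
      by_cases h : Odd k
      · rw [if_pos h, if_pos h.add_one]
      · rw [if_neg h, if_neg (by
          rw [Nat.not_even_iff_odd]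
          exact (Nat.not_odd_iff_even.1 h).add_one)]
    have a4 : (if Odd (k + 1) then (1 : ℤ) else 0) = if Even k then (1 : ℤ) else 0 := by
      by_cases h : Even k
      · rw [if_pos h, if_pos h.add_one]
      · rw [if_neg h, if_neg (by
          rw [Nat.not_odd_iff_even]
          exact (Nat.not_even_iff_odd.1 h).add_one)]
    rw [a1, a3, a4, if_neg (Nat.succ_ne_zero k), Nat.add_sub_cancel]
    have b1 : (-(if Even k then (1 : ℤ) else 0) + (N : ℤ) * -(al k).eval (N : ℤ)) =
      -(al (k + 1)).eval (N : ℤ) := by rw [a2]; ring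
    rw [b1]
    simp only [neg_mul, neg_smul, neg_neg]
    abel

end Pool.Agent.H88.LIN
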